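import Mathlib
import Pool.Agent.H.MP_492a05_co.B
import Pool.Agent.H.MP_492a05_co.C

set_option autoImplicit false

namespace Pool.Agent.Results.MP_492a05_co.No

/-- The dimension of the affine hull of a nonempty set. -/
noncomputable def dim {n : ℕ} (F : Set (EuclideanSpace ℝ (Fin n))) : ℕ :=
  Module.finrank ℝ (vectorSpan ℝ F)

open Classical in
/-- The rank of a face: `dim F + 1`, and `0` for the empty face. -/
noncomputable def rank {n : ℕ} (F : Set (EuclideanSpace ℝ (Fin n))) : ℕ :=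
  if F = ∅ then 0 else dim F + 1

/-- `Q` (finite, with least and greatest element) is graded with rank function `ρ`, and every
interval `[x, y]`, `x < y`, has as many elements of even rank as of odd rank. -/
structure Eulerian (Q : Type) [PartialOrder Q] [BoundedOrder Q] (ρ : Q → ℕ) : Prop where
  finite : Finite Q
  bot : ρ ⊥ = 0
  cover : ∀ x y : Q, x ⋖ y → ρ y = ρ x + 1
  euler : ∀ x y : Q, x < y →
    {z | x ≤ z ∧ z ≤ y ∧ Even (ρ z)}.ncard = {z | x ≤ z ∧ z ≤ y ∧ Odd (ρ z)}.ncard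

/-- `e` identifies the elements of `Q` of rank `≠ s` with the faces of `P` (exposed subsets,
including `∅` and `P`) of rank `≠ s`, preserving rank and order. -/
structure Agrees {n : ℕ} (P : Set (EuclideanSpace ℝ (Fin n))) (s : ℕ) {Q : Type} [PartialOrder Q]
    (ρ : Q → ℕ) (e : Q → Set (EuclideanSpace ℝ (Fin n))) : Prop where
  face : ∀ x, ρ x ≠ s → IsExposed ℝ P (e x) ∧ rank (e x) = ρ x
  onto : ∀ F, IsExposed ℝ P F → rank F ≠ s → ∃ x, ρ x ≠ s ∧ e x = F
  order : ∀ x y, ρ x ≠ s → ρ y ≠ s → (e x ⊆ e y ↔ x ≤ y)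

/-- `f` is a poset isomorphism from `Q` onto the face lattice of `P`. -/
structure FaceIso {n : ℕ} (P : Set (EuclideanSpace ℝ (Fin n))) {Q : Type} [PartialOrder Q]
    (f : Q → Set (EuclideanSpace ℝ (Fin n))) : Prop where
  face : ∀ x, IsExposed ℝ P (f x)
  onto : ∀ F, IsExposed ℝ P F → ∃ x, f x = F
  order : ∀ x y, f x ⊆ f y ↔ x ≤ y

open Pool.Agent.H.MP_492a05_co in
theorem result (n : ℕ) (V P : Set (EuclideanSpace ℝ (Fin n))) (hV : V.Finite)
    (hP : P = convexHull ℝ V) (r : ℕ) (hr1 : 1 ≤ r) (hr2 : r + 2 ≤ dim P)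
    (Q : Type) [PartialOrder Q] [BoundedOrder Q] (ρ : Q → ℕ) (hQ : Eulerian Q ρ)
    (e : Q → Set (EuclideanSpace ℝ (Fin n))) (he : Agrees P (r + 1) ρ e) :
    ∃ f, FaceIso P f ∧ ∀ x, ρ x ≠ r + 1 → f x = e x := by
  classical
  subst hP
  have := hQ.finite
  let _ : Fintype Q := Fintype.ofFinite Q
  have hp : ∀ F, IsExposed ℝ (convexHull ℝ V) F ↔ Fc V F := by
    intro F
    constructor
    · intro h
      rcases F.eq_empty_or_nonempty with rfl | ⟨x, hx⟩
      · exact ⟨LinearMap.fst ℝ ℝ _, fun v _ => by simp, by ext y; simp⟩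
      · obtain ⟨l, hl⟩ := h ⟨x, hx⟩
        have hx' := hx
        rw [hl] at hx'
        refine ⟨l x • LinearMap.fst ℝ ℝ _ - l.toLinearMap ∘ₗ LinearMap.snd ℝ ℝ _,
          fun v hv => by simpa using hx'.2 v (subset_convexHull ℝ V hv), ?_⟩
        rw [hl]
        ext y
        simp only [Set.mem_ofPred_eq, LinearMap.sub_apply, LinearMap.smul_apply, LinearMap.fst_apply,
          smul_eq_mul, mul_one, LinearMap.comp_apply, LinearMap.snd_apply,
          ContinuousLinearMap.coe_coe]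
        refine and_congr_right fun hy => ⟨fun a => ?_, fun a z hz => ?_⟩
        · linarith [a x hx'.1, hx'.2 y hy]
        · linarith [hx'.2 z hz]
    · rintro ⟨φ, h1, rfl⟩ ⟨x, hx⟩
      have nn := fun y hy => (zsub (C := Set.univ) h1 convex_univ (fun _ _ _ => trivial) y hy).1
      have sp : ∀ y : EuclideanSpace ℝ (Fin n), φ (1, y) = φ (1, 0) + φ (0, y) := fun y => by
        rw [← map_add]; simp
      refine ⟨LinearMap.toContinuousLinearMap (-(φ ∘ₗ LinearMap.inr ℝ ℝ _)), ?_⟩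
      ext y
      simp only [Set.mem_ofPred_eq, LinearMap.coe_toContinuousLinearMap', LinearMap.neg_apply,
        LinearMap.comp_apply, LinearMap.inr_apply]
      refine and_congr_right fun hy => ⟨fun a z hz => ?_, fun a => ?_⟩
      · linarith [sp y, sp z, nn z hz]
      · linarith [sp y, sp x, a x hx.1, hx.2, nn y hy]
  have hσ : ∀ F : {F // IsExposed ℝ (convexHull ℝ V) F}, rank F.1 = Module.finrank ℝ (sp F.1) := by
    intro F
    unfold rank
    split_ifs with h
    · rw [h, sp, Set.image_empty, Submodule.span_empty, finrank_bot]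
    · obtain ⟨x, hx⟩ := Set.nonempty_iff_ne_empty.mpr h
      exact (rk_sp hx).symm
  obtain ⟨tl, con⟩ := geom hV _ hp (fun F => rank F.1) hσ
  obtain ⟨tq, hE⟩ := eul hQ.cover hQ.euler
  have hq : ∀ F : {F // IsExposed ℝ (convexHull ℝ V) F}, ∃ x : Q,
      rank F.1 ≠ r + 1 → ρ x ≠ r + 1 ∧ e x = F.1 := by
    intro F
    by_cases h : rank F.1 = r + 1
    · exact ⟨⊥, fun c => absurd h c⟩
    · obtain ⟨x, hx⟩ := he.onto F.1 F.2 h
      exact ⟨x, fun _ => hx⟩
  choose q hq using hq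
  have ord : ∀ x y : {F // IsExposed ℝ (convexHull ℝ V) F}, rank x.1 ≠ r + 1 → rank y.1 ≠ r + 1 →
      (q x ≤ q y ↔ x ≤ y) := by
    intro x y hx hy
    rw [← he.order _ _ (hq x hx).1 (hq y hy).1, (hq x hx).2, (hq y hy).2]
    rfl
  have rk : ∀ x : {F // IsExposed ℝ (convexHull ℝ V) F}, rank x.1 ≠ r + 1 → ρ (q x) = rank x.1 := by
    intro x hx
    rw [← (he.face _ (hq x hx).1).2, (hq x hx).2]
  have qe : ∀ x (hx : ρ x ≠ r + 1), q ⟨e x, (he.face x hx).1⟩ = x := by
    intro x hx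
    obtain ⟨a, b⟩ := hq ⟨e x, (he.face x hx).1⟩ (by rw [(he.face x hx).2]; exact hx)
    exact le_antisymm ((he.order _ _ a hx).mp b.le) ((he.order _ _ hx a).mp b.ge)
  have rb : rank (∅ : Set (EuclideanSpace ℝ (Fin n))) = 0 := by simp [rank]
  have rt : rank (convexHull ℝ V) = dim (convexHull ℝ V) + 1 := by
    unfold rank
    rw [if_neg]
    intro c
    rw [c, dim, vectorSpan_empty, finrank_bot] at hr2
    omega
  have S : Setup (fun F : {F // IsExposed ℝ (convexHull ℝ V) F} => rank F.1) ρ (r + 1) q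
      ⟨∅, isExposed_empty⟩ ⟨_, IsExposed.refl _⟩ := by
    refine ⟨tl, tq, con, fun x y => ⟨⟨x.1 ∩ y.1, x.2.inter y.2⟩, Set.inter_subset_left,
      Set.inter_subset_right, fun z a b => Set.subset_inter a b⟩, fun x => Set.empty_subset _,
      fun x => x.2.subset, by simp only [rb]; omega, by simp only [rt]; omega, ?_, ?_, ord, rk,
      fun x hx => ⟨⟨e x, (he.face x hx).1⟩, by rw [(he.face x hx).2]; exact hx, qe x hx⟩⟩
    · have hb : ρ ⊥ ≠ r + 1 := by rw [hQ.bot]; omega
      have := (ord ⟨∅, isExposed_empty⟩ ⟨e ⊥, (he.face _ hb).1⟩ (by simp only [rb]; omega)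
        (by rw [(he.face _ hb).2]; exact hb)).mpr (Set.empty_subset _)
      rw [qe _ hb] at this
      exact fun x => this.trans bot_le
    · have h1 := rk ⟨_, IsExposed.refl _⟩ (by simp only [rt]; omega)
      have h2 := tq.le (le_top (a := q ⟨_, IsExposed.refl _⟩))
      simp only [rt] at h1
      have hb : ρ ⊤ ≠ r + 1 := by omega
      have := (ord ⟨e ⊤, (he.face _ hb).1⟩ ⟨_, IsExposed.refl _⟩
        (by rw [(he.face _ hb).2]; exact hb) (by simp only [rt]; omega)).mpr (he.face _ hb).1.subset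
      rw [qe _ hb] at this
      exact fun x => le_top.trans this
  obtain ⟨f, hf⟩ := S.iso hE
  refine ⟨fun x => (f x).1, ⟨fun x => (f x).2, fun F hF => ⟨f.symm ⟨F, hF⟩, by simp⟩,
    fun x y => f.le_iff_le⟩, fun x hx => ?_⟩
  have := hf ⟨e x, (he.face x hx).1⟩ (by rw [(he.face x hx).2]; exact hx)
  rw [qe x hx] at this
  exact congrArg Subtype.val this

end Pool.Agent.Results.MP_492a05_co.No
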